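import Mathlib
import Pool.Agent.W609.CR.Stm

set_option autoImplicit false

/-!
# One quadratic transformation of an irreducible curve (`P_STEP`)
-/

namespace Pool.Agent.W150.CR

open MvPolynomial Pool.Agent.W609.CR

lemma mem_VS {K : Type} [Field K] {ι : Type} (v : ι → Fin 3 → K) (w : ι → ℕ) (d : ℕ)
    (f : MvPolynomial (Fin 3) K) :
    f ∈ VS v w d ↔ f.IsHomogeneous d ∧ ∀ i, Van (v i) (w i) f := by
  unfold VS Van
  rw [Submodule.mem_inf, MvPolynomial.mem_homogeneousSubmodule, Submodule.restrictScalars_mem]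
  constructor
  · rintro ⟨h1, h2⟩
    exact ⟨h1, fun i => (Ideal.mem_iInf.1 h2) i⟩
  · rintro ⟨h1, h2⟩
    exact ⟨h1, Ideal.mem_iInf.2 h2⟩

lemma VS_reindex {K : Type} [Field K] {ι κ : Type} (e : ι ≃ κ) (v : κ → Fin 3 → K) (w : κ → ℕ)
    (d : ℕ) : VS (fun x => v (e x)) (fun x => w (e x)) d = VS v w d := by
  ext f
  rw [mem_VS, mem_VS]
  constructor
  · rintro ⟨h1, h2⟩
    refine ⟨h1, fun y => ?_⟩
    have := h2 (e.symm y)
    simpa using this
  · rintro ⟨h1, h2⟩
    exact ⟨h1, fun x => h2 (e x)⟩

theorem t_step (h1 : P_LIN) (h2 : P_STD) (h3 : P_STDV) (h4 : P_GEN) : P_STEP := by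
  intro K _ _ s P hP i hi d G w hd hG hGh hGo
  obtain ⟨hL, hS⟩ := h1 K
  obtain ⟨hdet, hu, P', hP', hP'i, hP'j⟩ := h4 K s P hP i hi
  set A := mat3 P i with hA
  have hAu : IsUnit A.det := isUnit_iff_ne_zero.2 hdet
  have hdet' : A⁻¹.det ≠ 0 := by
    rw [Matrix.det_nonsing_inv]
    simpa using hdet
  have hAbs : ∀ k, A.mulVec (bs k) = aff (P (i k)) := by
    intro k
    funext r
    simp only [bs, Matrix.mulVec_single_one]
    simp [hA, mat3, Matrix.col]
  have hAA : ∀ v, A.mulVec (A⁻¹.mulVec v) = v := by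
    intro v
    rw [Matrix.mulVec_mulVec, Matrix.mul_nonsing_inv _ hAu, Matrix.one_mulVec]
  have hAA' : ∀ v, A⁻¹.mulVec (A.mulVec v) = v := by
    intro v
    rw [Matrix.mulVec_mulVec, Matrix.nonsing_inv_mul _ hAu, Matrix.one_mulVec]
  obtain ⟨hLh, hLi, hLv, hLd⟩ := hL A hdet
  obtain ⟨hLh', hLi', hLv', hLd'⟩ := hL A⁻¹ hdet'
  let J : Type := {j : Fin s // ∀ k, j ≠ i k}
  let u : J → Fin 3 → K := fun j => A⁻¹.mulVec (aff (P j.1))
  have hAuj : ∀ j : J, A.mulVec (u j) = aff (P j.1) := fun j => hAA _
  have hu0 : ∀ (j : J) (k : Fin 3), u j k ≠ 0 := fun j k => hu j.1 j.2 k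
  -- the first form
  have hG1k : ∀ k, Ord (bs k) (w (i k)) (lin A G) := by
    intro k
    refine ⟨(hLv _ _ _).1 ?_, fun h => (hGo (i k)).2 ?_⟩
    · rw [hAbs]; exact (hGo (i k)).1
    · rw [← hAbs]; exact (hLv _ _ _).2 h
  have hG1j : ∀ j : J, Ord (u j) (w j.1) (lin A G) := by
    intro j
    refine ⟨(hLv _ _ _).1 ?_, fun h => (hGo j.1).2 ?_⟩
    · rw [hAuj]; exact (hGo j.1).1
    · rw [← hAuj]; exact (hLv _ _ _).2 h
  obtain ⟨i01, i02, i12, G2, hG2, hG2h, hG2k, hG2j⟩ :=
    h2 K d (lin A G) (fun k => w (i k)) J u (fun j => w j.1) hd (hLi G hG) (hLh G d hGh) hG1k hu0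
      hG1j
  refine ⟨i01, i02, i12, P', lin A⁻¹ G2, hP', hLi' _ hG2, hLh' _ _ hG2h, ?_, ?_⟩
  · -- the multiplicities
    have hG3k : ∀ k, Ord (aff (P' (i k)))
        ((![d - (w (i 1) + w (i 2)), d - (w (i 0) + w (i 2)), d - (w (i 0) + w (i 1))] :
          Fin 3 → ℕ) k) (lin A⁻¹ G2) := by
      intro k
      have hk : A⁻¹.mulVec (aff (P' (i k))) = bs k := by
        rw [hP'i, ← hAbs, hAA']
      have hk2 := hG2k k
      refine ⟨(hLv' _ _ _).1 ?_, fun h => hk2.2 ?_⟩
      · rw [hk]; exact hk2.1
      · rw [← hk]; exact (hLv' _ _ _).2 h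
    intro j
    by_cases h0 : j = i 0
    · have := hG3k 0
      simp only [Matrix.cons_val_zero] at this
      rw [h0]
      simpa [wcr] using this
    by_cases h1' : j = i 1
    · have := hG3k 1
      simp only [Matrix.cons_val_one, Matrix.cons_val_zero] at this
      have h10 : i 1 ≠ i 0 := by rw [← h1']; exact h0
      rw [h1']
      simpa [wcr, h10] using this
    by_cases h2' : j = i 2
    · have := hG3k 2
      simp only [Matrix.cons_val] at this
      have h20 : i 2 ≠ i 0 := by rw [← h2']; exact h0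
      have h21 : i 2 ≠ i 1 := by rw [← h2']; exact h1'
      rw [h2']
      simpa [wcr, h20, h21] using this
    · have hj : ∀ k, j ≠ i k := by
        intro k
        fin_cases k
        · exact h0
        · exact h1'
        · exact h2'
      have hwj : wcr d i w j = w j := by simp [wcr, h0, h1', h2']
      rw [hwj]
      obtain ⟨c, hc, hcj⟩ := hP'j j hj
      have hG2j' := hG2j ⟨j, hj⟩
      have hv : A⁻¹.mulVec (c • aff (P' j)) = fun k => (u ⟨j, hj⟩ k)⁻¹ := by
        rw [← hcj, hAA']
      have key : ∀ m, Van (aff (P' j)) m (lin A⁻¹ G2) ↔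
          Van (fun k => (u ⟨j, hj⟩ k)⁻¹) m G2 := by
        intro m
        rw [← hS (lin A⁻¹ G2) _ (hLh' _ _ hG2h) c hc, ← hLv', hv]
      exact ⟨(key _).2 hG2j'.1, fun h => hG2j'.2 ((key _).1 h)⟩
  · -- the dimensions
    classical
    have hbij : Function.Bijective (Sum.elim i (fun j : J => j.1)) := by
      constructor
      · intro x y hxy
        rcases x with k | j <;> rcases y with k' | j'
        · simp only [Sum.elim_inl] at hxy
          rw [hi hxy]
        · simp only [Sum.elim_inl, Sum.elim_inr] at hxy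
          exact absurd hxy.symm (j'.2 k)
        · simp only [Sum.elim_inl, Sum.elim_inr] at hxy
          exact absurd hxy (j.2 k')
        · simp only [Sum.elim_inr] at hxy
          exact congrArg _ (Subtype.ext hxy)
      · intro j
        by_cases h : ∃ k, j = i k
        · obtain ⟨k, hk⟩ := h
          exact ⟨Sum.inl k, hk.symm⟩
        · push Not at h
          exact ⟨Sum.inr ⟨j, h⟩, rfl⟩
    let e : Fin 3 ⊕ J ≃ Fin s := Equiv.ofBijective _ hbij
    have he : ∀ x, e x = Sum.elim i (fun j : J => j.1) x := fun x => rfl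
    have : Fintype J := Fintype.ofInjective (fun j : J => j.1) Subtype.val_injective
    have hv1 : (fun x => aff (P (e x))) = fun x => A.mulVec (Sum.elim bs u x) := by
      funext x
      rcases x with k | j
      · simp only [he, Sum.elim_inl]; rw [hAbs]
      · simp only [he, Sum.elim_inr]; rw [hAuj]
    have hw1 : (fun x => w (e x)) = Sum.elim (fun k => w (i k)) (fun j : J => w j.1) := by
      funext x
      rcases x with k | j
      · simp only [he, Sum.elim_inl]
      · simp only [he, Sum.elim_inr]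
    have hw2 : (fun x => wcr d i w (e x)) =
        Sum.elim (![d - (w (i 1) + w (i 2)), d - (w (i 0) + w (i 2)), d - (w (i 0) + w (i 1))] :
          Fin 3 → ℕ) (fun j : J => w j.1) := by
      funext x
      rcases x with k | j
      · simp only [he, Sum.elim_inl]
        have h10 : i 1 ≠ i 0 := fun h => absurd (hi h) (by decide)
        have h20 : i 2 ≠ i 0 := fun h => absurd (hi h) (by decide)
        have h21 : i 2 ≠ i 1 := fun h => absurd (hi h) (by decide)
        fin_cases k
        · simp [wcr]
        · simp [wcr, h10]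
        · simp [wcr, h20, h21]
      · simp only [he, Sum.elim_inr]
        simp [wcr, j.2 0, j.2 1, j.2 2]
    calc Module.finrank K (VS (fun j => aff (P j)) w d)
        = Module.finrank K (VS (fun x => aff (P (e x))) (fun x => w (e x)) d) := by
          rw [VS_reindex e (fun j => aff (P j)) w d]
      _ = Module.finrank K (VS (Sum.elim bs u)
            (Sum.elim (fun k => w (i k)) (fun j : J => w j.1)) d) := by
          rw [hv1, hw1, hLd]
      _ ≤ Module.finrank K (VS (Sum.elim bs fun j k => (u j k)⁻¹)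
            (Sum.elim (![d - (w (i 1) + w (i 2)), d - (w (i 0) + w (i 2)),
              d - (w (i 0) + w (i 1))] : Fin 3 → ℕ) (fun j : J => w j.1))
            (2 * d - (w (i 0) + w (i 1) + w (i 2)))) :=
          h3 K d (fun k => w (i k)) J u (fun j => w j.1) hu0 i01 i02 i12
      _ = Module.finrank K (VS (fun x => A.mulVec ((Sum.elim bs fun j k => (u j k)⁻¹) x))
            (Sum.elim (![d - (w (i 1) + w (i 2)), d - (w (i 0) + w (i 2)),
              d - (w (i 0) + w (i 1))] : Fin 3 → ℕ) (fun j : J => w j.1))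
            (2 * d - (w (i 0) + w (i 1) + w (i 2)))) := by
          rw [hLd]
      _ = Module.finrank K (VS (fun x => aff (P' (e x))) (fun x => wcr d i w (e x))
            (2 * d - (w (i 0) + w (i 1) + w (i 2)))) := by
          rw [hw2]
          have : VS (fun x => A.mulVec ((Sum.elim bs fun (j : J) k => (u j k)⁻¹) x))
            (Sum.elim (![d - (w (i 1) + w (i 2)), d - (w (i 0) + w (i 2)),
              d - (w (i 0) + w (i 1))] : Fin 3 → ℕ) (fun j : J => w j.1))
            (2 * d - (w (i 0) + w (i 1) + w (i 2))) =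
            VS (fun x => aff (P' (e x))) (Sum.elim (![d - (w (i 1) + w (i 2)),
              d - (w (i 0) + w (i 2)),
              d - (w (i 0) + w (i 1))] : Fin 3 → ℕ) (fun j : J => w j.1))
            (2 * d - (w (i 0) + w (i 1) + w (i 2))) := by
            ext f
            rw [mem_VS, mem_VS]
            refine and_congr_right fun hf => forall_congr' fun x => ?_
            rcases x with k | j
            · simp only [he, Sum.elim_inl]
              rw [hAbs, hP'i]
            · simp only [he, Sum.elim_inr]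
              obtain ⟨c, hc, hcj⟩ := hP'j j.1 j.2
              have : A.mulVec (fun k => (u j k)⁻¹) = c • aff (P' j.1) := hcj
              rw [this]
              exact hS f _ hf c hc _ _
          rw [this]
      _ = Module.finrank K (VS (fun j => aff (P' j)) (wcr d i w)
            (2 * d - (w (i 0) + w (i 1) + w (i 2)))) := by
          rw [VS_reindex e (fun j => aff (P' j)) (wcr d i w)]

end Pool.Agent.W150.CR
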